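import Pool.Agent.H50Z.Twin.Main

open Pool.Agent.H669Z.Hech Pool.Agent.H50Z.Hur Pool.Agent.H50Z.Twin Pool.Agent.Helper292.ForceCH

/-- Q1. (1) Some forcing notion preserves the first uncountable ordinal and forces `Bounded`,
`Scale K` and `Twin K` for a linear order `K` with short initial segments. (2) These statements
imply that some Hurewicz set of reals concentrated with respect to the bounding number is not
productively Hurewicz. -/
theorem Pool.Agent.Results.MP_e8f8b0_gt.AANotProvable.result :
    (∃ (P : Type) (_ : Preorder P) (K : Type) (_ : LinearOrder K), Nonempty P ∧ Short K ∧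
      ∀ p : P, p ∈ OmegaOnePreserved P ∧ p ∈ FBounded P ∧ p ∈ FScale P K ∧ p ∈ FTwin P K) ∧
    ∀ (K : Type) [LinearOrder K], Short K → Bounded → Scale K → Twin K →
      ∃ X : Set Cantor, IsHurewicz X ∧ IsConcentrated boundingNumber X ∧
        ¬ IsProductivelyHurewicz X :=
  ⟨Pool.Agent.H50Z.Twin.exists_forcing, Pool.Agent.H50Z.Twin.ground⟩
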