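import Pool.Agent.H50Z.Hur.Main

namespace Pool.Agent.Results.MP_e8f8b0_gt.AProductiveCH

open Pool.Agent.H50Z.Hur

/-- Under CH, and more generally when the bounding number is the first uncountable cardinal, every
Hurewicz set of reals that is concentrated with respect to the bounding number is productively
Hurewicz. -/
theorem result
    (h : Cardinal.continuum.{0} = Cardinal.aleph 1 ∨ boundingNumber = Cardinal.aleph 1)
    (X : Set Cantor) (hX : IsHurewicz X) (hc : IsConcentrated boundingNumber X) :
    IsProductivelyHurewicz X :=
  main (h.elim (fun h => h ▸ boundingNumber_le) fun h => h.le) X hX hc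

end Pool.Agent.Results.MP_e8f8b0_gt.AProductiveCH
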